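import Pool.Agent.H23.GB.Targets
import Pool.Agent.H27.GW.PR

/-!
Module ZB of the project on perfect spanning sets (MP_684e05_nt): basic lemmas.
-/

set_option autoImplicit false

open Finset Polynomial
open scoped Classical

namespace Pool.Agent.H4.GB

open Pool.Agent.H23.GW Pool.Agent.H23.GA Pool.Agent.H23.GB

lemma V_im {G : Type} [AddCommGroup G] [Fintype G] (T : Finset G) (hT : ∀ x ∈ T, -x ∈ T)
    (χ : AddChar G ℂ) : (V T χ).im = 0 := by
  rw [← Complex.conj_eq_iff_im, V, map_sum]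
  refine Finset.sum_bij (fun x _ => -x) (fun x hx => hT x hx) (fun x _ y _ h => neg_injective h)
    (fun y hy => ⟨-y, hT y hy, neg_neg y⟩) fun x _ => ?_
  rw [AddChar.map_neg_eq_conj]

lemma V_norm {G : Type} [AddCommGroup G] [Fintype G] (T : Finset G) (hT : ∀ x ∈ T, -x ∈ T)
    (χ : AddChar G ℂ) : ‖V T χ‖ = |v T χ| := by
  have h : V T χ = ((v T χ : ℝ) : ℂ) := by
    apply Complex.ext
    · simp [v]
    · simp [V_im T hT χ]
  rw [h, Complex.norm_real, Real.norm_eq_abs]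

lemma V_zero {G : Type} [AddCommGroup G] [Fintype G] (T : Finset G) : V T 0 = #T := by
  simp [V]

lemma v_zero {G : Type} [AddCommGroup G] [Fintype G] (T : Finset G) : v T 0 = #T := by
  simp [v, V_zero]

lemma V_le {G : Type} [AddCommGroup G] [Fintype G] (T : Finset G)
    (χ : AddChar G ℂ) : ‖V T χ‖ ≤ #T := by
  refine (norm_sum_le _ _).trans ?_
  simp [AddChar.norm_apply]

lemma torsion_count {G : Type} [AddCommGroup G] [Fintype G] (T : Finset G) (k : ℕ)
    (hk : Set.InjOn (fun x : G => k • x) (T : Set G)) :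
    #{χ : AddChar G ℂ | k • χ = 0} * #T ^ 2 ≤ Fintype.card G * #T := by
  have h1 : ∑ χ : AddChar G ℂ, (∑ x ∈ T, χ (k • x)) * (∑ y ∈ T, χ (-(k • y))) =
      (Fintype.card G : ℂ) * #T := by
    have e1 : ∀ χ : AddChar G ℂ, (∑ x ∈ T, χ (k • x)) * (∑ y ∈ T, χ (-(k • y))) =
        ∑ x ∈ T, ∑ y ∈ T, χ (k • x + -(k • y)) := by
      intro χ
      rw [Finset.sum_mul_sum]
      refine Finset.sum_congr rfl fun x _ => Finset.sum_congr rfl fun y _ => ?_
      rw [AddChar.map_add_eq_mul]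
    rw [Finset.sum_congr rfl fun χ _ => e1 χ, Finset.sum_comm]
    have e2 : ∀ x ∈ T, ∑ χ : AddChar G ℂ, ∑ y ∈ T, χ (k • x + -(k • y)) =
        (Fintype.card G : ℂ) := by
      intro x hx
      rw [Finset.sum_comm]
      have e3 : ∀ y ∈ T, ∑ χ : AddChar G ℂ, χ (k • x + -(k • y)) =
          if y = x then (Fintype.card G : ℂ) else 0 := by
        intro y hy
        rw [AddChar.sum_apply_eq_ite]
        refine if_congr ?_ rfl rfl
        rw [← sub_eq_add_neg, sub_eq_zero]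
        constructor
        · intro h
          exact (hk hx hy h).symm
        · intro h
          rw [h]
      rw [Finset.sum_congr rfl e3, Finset.sum_ite_eq', if_pos hx]
    rw [Finset.sum_congr rfl e2, Finset.sum_const, nsmul_eq_mul, mul_comm]
  have h2 : ∀ χ : AddChar G ℂ, (∑ x ∈ T, χ (k • x)) * (∑ y ∈ T, χ (-(k • y))) =
      ((‖∑ x ∈ T, χ (k • x)‖ ^ 2 : ℝ) : ℂ) := by
    intro χ
    have e : ∑ y ∈ T, χ (-(k • y)) = (starRingEnd ℂ) (∑ x ∈ T, χ (k • x)) := by
      rw [map_sum]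
      refine Finset.sum_congr rfl fun y _ => ?_
      rw [AddChar.map_neg_eq_conj]
    rw [e, Complex.mul_conj, Complex.normSq_eq_norm_sq]
  rw [Finset.sum_congr rfl fun χ _ => h2 χ] at h1
  have h3 : ∑ χ : AddChar G ℂ, ‖∑ x ∈ T, χ (k • x)‖ ^ 2 = (Fintype.card G : ℝ) * #T := by
    exact_mod_cast h1
  have h4 : (#{χ : AddChar G ℂ | k • χ = 0} : ℝ) * (#T : ℝ) ^ 2 ≤ (Fintype.card G : ℝ) * #T := by
    rw [← h3]
    calc (#{χ : AddChar G ℂ | k • χ = 0} : ℝ) * (#T : ℝ) ^ 2
        = ∑ χ : AddChar G ℂ with k • χ = 0, (#T : ℝ) ^ 2 := by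
          rw [Finset.sum_const, nsmul_eq_mul]
      _ ≤ ∑ χ : AddChar G ℂ with k • χ = 0, ‖∑ x ∈ T, χ (k • x)‖ ^ 2 := by
          refine Finset.sum_le_sum fun χ hχ => ?_
          rw [Finset.mem_filter] at hχ
          have e : ∑ x ∈ T, χ (k • x) = (#T : ℂ) := by
            rw [Finset.sum_congr rfl (fun x _ => ?_), Finset.sum_const, nsmul_eq_mul, mul_one]
            rw [AddChar.map_nsmul_eq_pow, ← AddChar.nsmul_apply, hχ.2, AddChar.zero_apply]
          rw [e]
          simp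
      _ ≤ _ := by
          refine Finset.sum_le_sum_of_subset_of_nonneg (Finset.filter_subset _ _) fun _ _ _ => ?_
          positivity
  exact_mod_cast h4

lemma two_smul_ne {G : Type} [AddCommGroup G] [Fintype G] (hG : Odd (Fintype.card G))
    (χ : AddChar G ℂ) (hχ : χ ≠ 0) : 2 • χ ≠ 0 := by
  intro h
  apply hχ
  have h1 : addOrderOf χ ∣ 2 := addOrderOf_dvd_of_nsmul_eq_zero h
  have h2 : addOrderOf χ ∣ Fintype.card (AddChar G ℂ) := addOrderOf_dvd_card
  rw [AddChar.card_eq] at h2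
  have h3 : addOrderOf χ ∣ 1 := by
    have := Nat.dvd_gcd h1 h2
    rwa [(Nat.coprime_two_left.2 hG).gcd_eq_one] at this
  exact AddMonoid.addOrderOf_eq_one_iff.1 (Nat.dvd_one.1 h3)

end Pool.Agent.H4.GB
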